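import Pool.Agent.R344.TA.A
import Pool.Agent.Results.MP_a11cf9_nt.ExceptionsBelowEntropy

/-! Terras' coefficient stopping time conjecture for all terms of almost all trajectories. -/

set_option autoImplicit false

namespace Pool.Agent.Results.MP_a11cf9_nt.AlongTrajectories

open Finset

/-- the `3x+1` map -/
def T (n : ℕ) : ℕ := if n % 2 = 0 then n / 2 else (3 * n + 1) / 2

/-- the number of the odd ones among the first `k` terms of the trajectory of `n` -/
def a (k n : ℕ) : ℕ := ((range k).filter (fun i => T^[i] n % 2 = 1)).card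

/-- `k` is the coefficient stopping time of `n` -/
def IsKappa (n k : ℕ) : Prop := 1 ≤ k ∧ 3 ^ a k n < 2 ^ k ∧ ∀ j, 1 ≤ j → j < k → 2 ^ j ≤ 3 ^ a j n

/-- `k` is the stopping time of `n` -/
def IsSigma (n k : ℕ) : Prop := 1 ≤ k ∧ T^[k] n < n ∧ ∀ j, 1 ≤ j → j < k → n ≤ T^[j] n

/-- the stopping time of `n` and its coefficient stopping time (both possibly infinite) are different -/
def Exception (n : ℕ) : Prop := ¬ ∀ k, IsKappa n k ↔ IsSigma n k

/-- For every `B` there is `K` such that for all `Y ≥ 2` and all `N` at most `K N / (log Y) ^ B` of the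
integers `n ≤ N` have a trajectory which contains, before its first value below `Y`, a term whose stopping
time is different from its coefficient stopping time. -/
theorem result (B : ℕ) : ∃ K : ℝ, ∀ Y : ℝ, 2 ≤ Y → ∀ N : ℕ,
    ({n : ℕ | 1 ≤ n ∧ n ≤ N ∧ ∃ k : ℕ, (∀ j ≤ k, Y ≤ ((T^[j] n : ℕ) : ℝ)) ∧ Exception (T^[k] n)}.ncard : ℝ)
      ≤ K * N / (Real.log Y) ^ B := by
  obtain ⟨C, hC, hcount⟩ := Pool.Agent.Results.MP_a11cf9_nt.ExceptionsBelowEntropy.result
  have hH : Pool.Agent.Results.MP_a11cf9_nt.ExceptionsBelowEntropy.H < 1 := by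
    unfold Pool.Agent.Results.MP_a11cf9_nt.ExceptionsBelowEntropy.H
    have h2 : 0 < Real.log 2 := Real.log_pos (by norm_num)
    have h3 : 0 < Real.log 3 := Real.log_pos (by norm_num)
    rw [div_lt_one h2, Real.binEntropy_lt_log_two]
    intro h
    rw [div_eq_iff h3.ne'] at h
    have h4 : Real.log 4 = 2 * Real.log 2 := by
      rw [show (4 : ℝ) = 2 ^ 2 by norm_num, Real.log_pow]; push_cast; ring
    have h5 : Real.log 3 < Real.log 4 := Real.log_lt_log (by norm_num) (by norm_num)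
    linarith
  obtain ⟨K, hK⟩ := Pool.Agent.R344.TA.avoid (A := {m : ℕ | 2 ≤ m ∧ Exception m})
    (c := Pool.Agent.Results.MP_a11cf9_nt.ExceptionsBelowEntropy.H - 48 / 1000000000) (by linarith) hC
    (fun X hX => by
      refine le_trans ?_ (hcount X hX 0)
      have hf : {n : ℕ | 2 ≤ n ∧ 0 < n ∧ (n : ℝ) ≤ ((0 : ℕ) : ℝ) + X ∧
          Pool.Agent.Results.MP_a11cf9_nt.ExceptionsBelowEntropy.Exception n}.Finite := by
        apply (Set.finite_Iic ⌊X⌋₊).subset
        rintro n ⟨_, _, h3, _⟩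
        rw [Nat.cast_zero, zero_add] at h3
        exact Nat.le_floor h3
      have hsub : {m : ℕ | m ∈ {m : ℕ | 2 ≤ m ∧ Exception m} ∧ 1 ≤ m ∧ (m : ℝ) ≤ X} ⊆
          {n : ℕ | 2 ≤ n ∧ 0 < n ∧ (n : ℝ) ≤ ((0 : ℕ) : ℝ) + X ∧
            Pool.Agent.Results.MP_a11cf9_nt.ExceptionsBelowEntropy.Exception n} := by
        rintro m ⟨⟨h1, h2⟩, h3, h4⟩
        refine ⟨h1, h3, ?_, h2⟩
        rw [Nat.cast_zero, zero_add]; exact h4
      exact_mod_cast Set.ncard_le_ncard hsub hf) B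
  refine ⟨K, fun Y hY N => le_trans ?_ (hK Y hY N)⟩
  have hsub : {n : ℕ | 1 ≤ n ∧ n ≤ N ∧ ∃ k : ℕ, (∀ j ≤ k, Y ≤ ((T^[j] n : ℕ) : ℝ)) ∧ Exception (T^[k] n)} ⊆
      {n : ℕ | 1 ≤ n ∧ n ≤ N ∧ Pool.Agent.R344.TA.Meets {m : ℕ | 2 ≤ m ∧ Exception m} Y n} := by
    rintro n ⟨h1, h2, k, h3, h4⟩
    refine ⟨h1, h2, k, ⟨?_, h4⟩, h3⟩
    have h5 : (2 : ℝ) ≤ ((T^[k] n : ℕ) : ℝ) := hY.trans (h3 k le_rfl)
    exact_mod_cast h5
  exact_mod_cast Set.ncard_le_ncard hsub ((Set.finite_Iic N).subset fun n hn => hn.2.1)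

end Pool.Agent.Results.MP_a11cf9_nt.AlongTrajectories
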